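import Mathlib
import Pool.Agent.H438R2.Bridge

set_option autoImplicit false

open Pool.Agent.H438R2

namespace Pool.Agent.Results.MP_d8850a_nt.IntermediateDim

/-- **Hausdorff dimension of the level sets of the intermediate exponents.**
For all `0 ≤ d < n` and all real `w > (d+1)/(n-d)`, the set of points of Euclidean `n`-space with
`ω_{n,d}(θ) ≥ w` has Hausdorff dimension `d + (n+1)/(w+1)`. -/
theorem result (n d : ℕ) (hd : d < n) (w : ℝ) (hw : ((d : ℝ) + 1) / ((n : ℝ) - d) < w) :
    dimH {θ : EuclideanSpace ℝ (Fin n) | (w : EReal) ≤ omegaExp n d (fun i => θ i)} =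
      ENNReal.ofReal ((d : ℝ) + ((n : ℝ) + 1) / (w + 1)) := by
  rw [← dim_pi n d hd w hw]
  exact ContinuousLinearEquiv.dimH_preimage (EuclideanSpace.equiv (Fin n) ℝ)
    {θ : Fin n → ℝ | (w : EReal) ≤ omegaExp n d θ}

end Pool.Agent.Results.MP_d8850a_nt.IntermediateDim
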